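import Mathlib

/-! Irreducibility of `A(X) B'(Y) - B(X) A'(Y)` for rational functions `A / B`, `A' / B'` of
coprime degrees. -/

namespace Pool.Agent.Lib.MP_81ecef_ag.L3

open Polynomial IntermediateField algebraAdjoinAdjoin

theorem irr_map_of_coprime {k K : Type} [Field k] [Field K] [Algebra k K] [Module.Finite k K]
    {g : k[X]} (hg : Irreducible g) (h : Nat.Coprime g.natDegree (Module.finrank k K)) :
    Irreducible (g.map (algebraMap k K)) := by
  have hd : 0 < g.natDegree := hg.natDegree_pos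
  have hd' : 0 < (g.map (algebraMap k K)).natDegree := by rwa [natDegree_map]
  obtain ⟨p, hp, hpg⟩ := exists_irreducible_of_natDegree_pos hd'
  have : Fact (Irreducible p) := ⟨hp⟩
  have hp0 : p ≠ 0 := hp.ne_zero
  have : Module.Finite K (AdjoinRoot p) := (AdjoinRoot.powerBasis hp0).finite
  have : Module.Finite k (AdjoinRoot p) := Module.Finite.trans K (AdjoinRoot p)
  have h1 : Module.finrank K (AdjoinRoot p) = p.natDegree := by
    rw [(AdjoinRoot.powerBasis hp0).finrank, AdjoinRoot.powerBasis_dim]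
  have h2 : aeval (AdjoinRoot.root p) g = 0 := by
    rw [← aeval_map_algebraMap K]
    obtain ⟨q, hq⟩ := hpg
    rw [hq, map_mul, AdjoinRoot.aeval_eq, AdjoinRoot.mk_self, zero_mul]
  have h3 : g.natDegree ∣ Module.finrank k (AdjoinRoot p) := by
    have key := minpoly.Irreducible.eq_minpoly hg h2
    have h4 := minpoly.degree_dvd (K := k) (x := AdjoinRoot.root p) (Algebra.IsIntegral.isIntegral _)
    rw [key, natDegree_C_mul (leadingCoeff_ne_zero.mpr hg.ne_zero)]
    exact h4
  rw [← Module.finrank_mul_finrank k K (AdjoinRoot p), h1] at h3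
  have h5 : g.natDegree ≤ p.natDegree :=
    Nat.le_of_dvd hp.natDegree_pos (h.dvd_of_dvd_mul_left h3)
  have h0 : g.map (algebraMap k K) ≠ 0 := Polynomial.map_ne_zero hg.ne_zero
  have h6 : Associated p (g.map (algebraMap k K)) :=
    associated_of_dvd_of_natDegree_le hpg h0 (by rwa [natDegree_map])
  exact h6.irreducible hp

/-- A pair of coprime polynomials that defines a rational function of degree `n > 0`. -/
structure Deg (n : ℕ) (A B : ℂ[X]) : Prop where
  pos : 0 < n
  cop : IsCoprime A B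
  lA : A.natDegree ≤ n
  lB : B.natDegree ≤ n
  top : A.coeff n ≠ 0 ∨ B.coeff n ≠ 0

theorem Deg.lin {n : ℕ} {A B : ℂ[X]} (h : Deg n A B) {a b : ℂ} (hab : C a * A = C b * B) :
    a = 0 ∧ b = 0 := by
  have hu : ∀ {P Q : ℂ[X]} {s : ℂ}, IsCoprime P Q → P = C s * Q → P.coeff n = 0 ∧ Q.coeff n = 0 := by
    intro P Q s hc he
    have h1 : IsUnit Q := hc.isUnit_of_dvd' ⟨C s, by rw [he, mul_comm]⟩ dvd_rfl
    have h2 : Q.coeff n = 0 :=
      coeff_eq_zero_of_natDegree_lt (by rw [natDegree_eq_zero_of_isUnit h1]; exact h.pos)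
    exact ⟨by rw [he, coeff_C_mul, h2, mul_zero], h2⟩
  have ha : a = 0 := by
    by_contra ha
    have := hu h.cop (s := a⁻¹ * b) (by
      rw [map_mul, mul_assoc, ← hab, ← mul_assoc, ← map_mul, inv_mul_cancel₀ ha, map_one, one_mul])
    rcases h.top with h1 | h1
    · exact h1 this.1
    · exact h1 this.2
  refine ⟨ha, ?_⟩
  by_contra hb
  have := hu h.cop.symm (s := b⁻¹ * a) (by
    rw [map_mul, mul_assoc, hab, ← mul_assoc, ← map_mul, inv_mul_cancel₀ hb, map_one, one_mul])
  rcases h.top with h1 | h1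
  · exact h1 this.2
  · exact h1 this.1

theorem Deg.neA {n : ℕ} {A B : ℂ[X]} (h : Deg n A B) : A ≠ 0 := by
  intro h0
  have := h.lin (a := 1) (b := 0) (by simp [h0])
  exact one_ne_zero this.1

theorem Deg.neB {n : ℕ} {A B : ℂ[X]} (h : Deg n A B) : B ≠ 0 := by
  intro h0
  have := h.lin (a := 0) (b := 1) (by simp [h0])
  exact one_ne_zero this.2

/-- The polynomial `A - f B` over the field generated by `f`. -/
noncomputable def lin (f : RatFunc ℂ) (A B : ℂ[X]) : (ℂ⟮f⟯)[X] :=
  A.map (algebraMap ℂ _) - C (⟨f, mem_adjoin_simple_self ℂ f⟩ : ℂ⟮f⟯) * B.map (algebraMap ℂ _)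

theorem natDegree_lin {f : RatFunc ℂ} (hf : Transcendental ℂ f) {n : ℕ} {A B : ℂ[X]}
    (h : Deg n A B) : (lin f A B).natDegree = n := by
  refine natDegree_eq_of_le_of_coeff_ne_zero ?_ ?_
  · refine (natDegree_sub_le _ _).trans (max_le ?_ ?_)
    · exact natDegree_map_le.trans h.lA
    · exact (natDegree_C_mul_le _ _).trans (natDegree_map_le.trans h.lB)
  · intro h0
    have h1 : algebraMap ℂ (RatFunc ℂ) (A.coeff n) - f * algebraMap ℂ (RatFunc ℂ) (B.coeff n) = 0 := by
      have := congrArg (algebraMap ℂ⟮f⟯ (RatFunc ℂ)) h0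
      simpa [lin, coeff_map] using this
    by_cases hb : B.coeff n = 0
    · rw [hb, map_zero, mul_zero, sub_zero, map_eq_zero] at h1
      rcases h.top with h2 | h2
      · exact h2 h1
      · exact h2 hb
    · apply hf
      have : f = algebraMap ℂ (RatFunc ℂ) (A.coeff n / B.coeff n) := by
        rw [map_div₀, eq_div_iff ((_root_.map_ne_zero _).2 hb)]
        linear_combination -h1
      rw [this]
      exact isAlgebraic_algebraMap _

set_option backward.isDefEq.respectTransparency.types false in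
theorem irreducible_lin {f : RatFunc ℂ} (hf : Transcendental ℂ f) {n : ℕ} {A B : ℂ[X]}
    (h : Deg n A B) : Irreducible (lin f A B) := by
  let e := Polynomial.algEquivOfTranscendental ℂ f hf
  let φ : ℂ[X][X] := A.map (algebraMap ..) - C X * B.map (algebraMap ..)
  have hφ : Irreducible φ := by
    have : φ = Bivariate.swap (C A - X * C B) := by
      rw [map_sub, map_mul, Bivariate.swap_C, Bivariate.swap_C, Bivariate.swap_Y]
      rfl
    rw [this, MulEquiv.irreducible_iff]
    convert irreducible_C_mul_X_add_C (neg_ne_zero.mpr h.neB)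
      ((IsCoprime.neg_right_iff _ _).mpr h.cop).symm.isRelPrime using 1
    rw [map_neg]
    ring
  have hψ : Irreducible (φ.mapEquiv e.toRingEquiv) := (MulEquiv.irreducible_iff _).2 hφ
  have hm : (φ.mapEquiv e.toRingEquiv).map (algebraMap (Algebra.adjoin ℂ {f}) ℂ⟮f⟯) = lin f A B := by
    simp only [algebraMap_eq, map_sub, mapEquiv_apply,
      AlgEquiv.toRingEquiv_toRingHom, algEquivOfTranscendental_coe, Polynomial.map_map, map_mul,
      map_C, RingHom.coe_coe, aeval_X, e, φ, lin, Polynomial.map_sub, Polynomial.map_mul]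
    congr 2 <;> ext <;> simp
  have : UniqueFactorizationMonoid (Algebra.adjoin ℂ {f}) := hf.uniqueFactorizationMonoid_adjoin
  rw [← hm, ← IsPrimitive.irreducible_iff_irreducible_map_fraction_map]
  · exact hψ
  · apply hψ.isPrimitive
    intro H
    have h1 := natDegree_map_le (f := algebraMap (Algebra.adjoin ℂ {f}) ℂ⟮f⟯)
      (p := φ.mapEquiv e.toRingEquiv)
    rw [hm, H, natDegree_lin hf h] at h1
    exact absurd h.pos (by omega)

/-- The separated-variables polynomial `A(X) B'(Y) - B(X) A'(Y)`. -/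
noncomputable def sep (A B A' B' : ℂ[X]) : ℂ[X][X] :=
  C A * B'.map C - C B * A'.map C

theorem irreducible_sep {N M : ℕ} {A B A' B' : ℂ[X]} (h : Deg N A B) (h' : Deg M A' B')
    (hNM : Nat.Coprime M N) : Irreducible (sep A B A' B') := by
  set f : RatFunc ℂ := algebraMap ℂ[X] _ A / algebraMap ℂ[X] _ B with hfdef
  have hB : algebraMap ℂ[X] (RatFunc ℂ) B ≠ 0 := RatFunc.algebraMap_ne_zero h.neB
  have hfB : f * algebraMap ℂ[X] (RatFunc ℂ) B = algebraMap ℂ[X] _ A := div_mul_cancel₀ _ hB
  have hne : ¬ ∃ c, f = RatFunc.C c := by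
    rintro ⟨c, hc⟩
    rw [hc, ← RatFunc.algebraMap_C, ← map_mul] at hfB
    have := (RatFunc.algebraMap_injective ℂ) hfB
    exact one_ne_zero (h.lin (a := 1) (b := c) (by rw [this, map_one, one_mul])).1
  have hf : Transcendental ℂ f := f.transcendental_of_ne_C hne
  have hroot : aeval (RatFunc.X : RatFunc ℂ) (lin f A B) = 0 := by
    simp only [lin, aeval_sub, aeval_map_algebraMap, RatFunc.aeval_X_left_eq_algebraMap, map_mul,
      aeval_C, IntermediateField.algebraMap_apply]
    rw [hfB, sub_self]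
  have hint := (f.isAlgebraic_adjoin_simple_X hne).isIntegral
  have hfin : Module.finrank ℂ⟮f⟯ (RatFunc ℂ) = N := by
    rw [← (RatFunc.IntermediateField.adjoinXEquiv ℂ⟮f⟯).toLinearEquiv.finrank_eq,
      adjoin.finrank hint, ← minpoly.eq_of_irreducible (irreducible_lin hf h) hroot, mul_comm,
      natDegree_C_mul <| inv_ne_zero <| leadingCoeff_ne_zero.mpr (irreducible_lin hf h).ne_zero,
      natDegree_lin hf h]
  have : Module.Finite ℂ⟮f⟯ (RatFunc ℂ) :=
    Module.finite_of_finrank_pos (by rw [hfin]; exact h.pos)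
  have h1 := irr_map_of_coprime (K := RatFunc ℂ) (irreducible_lin hf h')
    (by rwa [natDegree_lin hf h', hfin])
  have h2 : (sep A B A' B').map (algebraMap ℂ[X] (RatFunc ℂ)) =
      C (-algebraMap ℂ[X] (RatFunc ℂ) B) * (lin f A' B').map (algebraMap ℂ⟮f⟯ (RatFunc ℂ)) := by
    have e1 : (algebraMap ℂ[X] (RatFunc ℂ)).comp C = algebraMap ℂ (RatFunc ℂ) := by
      ext c
      simp
    simp only [sep, lin, Polynomial.map_sub, Polynomial.map_mul, map_C, Polynomial.map_map, e1,
      ← IsScalarTower.algebraMap_eq, IntermediateField.algebraMap_apply]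
    rw [← hfB, map_mul, map_neg]
    ring
  have hprim : (sep A B A' B').IsPrimitive := by
    intro r hr
    by_contra hu
    obtain ⟨q, hq⟩ := hr
    have hroot : ∃ x : ℂ, r.eval x = 0 := by
      by_cases hr0 : r = 0
      · exact ⟨0, by simp [hr0]⟩
      · exact IsAlgClosed.exists_root r (degree_pos_of_ne_zero_of_nonunit hr0 hu).ne'
    obtain ⟨x, hx⟩ := hroot
    have h3 := congrArg (Polynomial.map (evalRingHom x)) hq
    have e2 : (evalRingHom x).comp C = RingHom.id ℂ := by
      ext c
      simp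
    simp only [sep, Polynomial.map_sub, Polynomial.map_mul, map_C, Polynomial.map_map, e2,
      Polynomial.map_id,
      coe_evalRingHom, hx, map_zero, zero_mul] at h3
    obtain ⟨h4, h5⟩ := h'.lin (a := B.eval x) (b := A.eval x) (by linear_combination -h3)
    obtain ⟨u, v, huv⟩ := h.cop
    have := congrArg (eval x) huv
    simp [h4, h5] at this
  rw [hprim.irreducible_iff_irreducible_map_fraction_map (K := RatFunc ℂ), h2]
  exact (irreducible_isUnit_mul (isUnit_C.2 (isUnit_iff_ne_zero.2 (neg_ne_zero.2 hB)))).2 h1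

end Pool.Agent.Lib.MP_81ecef_ag.L3
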