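import Mathlib
import Pool.Agent.Lib.MP_81ecef_ag.L3.Sep

/-! Two families of rational functions, of degrees `4 ^ l` and `3 ^ k`, almost all of whose
points over `0`, `∞`, `-1` have ramification index three. -/

namespace Pool.Agent.Lib.MP_81ecef_ag.L3

open Polynomial

theorem cop_of_roots {A B : ℂ[X]} (h : ∀ x : ℂ, A.eval x = 0 → B.eval x = 0 → False) :
    IsCoprime A B := by
  rw [isCoprime_iff_aeval_ne_zero_of_isAlgClosed ℂ ℂ]
  intro x
  by_contra hx
  push Not at hx
  exact h x hx.1 hx.2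

theorem roots_of_cop {A B : ℂ[X]} (h : IsCoprime A B) {x : ℂ} (hA : A.eval x = 0)
    (hB : B.eval x = 0) : False := by
  obtain ⟨u, v, huv⟩ := h
  have := congrArg (eval x) huv
  simp [hA, hB] at this

theorem natDegree_radical_le_card {f : ℂ[X]} (hf : f ≠ 0) :
    (UniqueFactorizationMonoid.radical f).natDegree ≤ f.roots.toFinset.card := by
  classical
  have hs : (UniqueFactorizationMonoid.radical f).Separable :=
    PerfectField.separable_iff_squarefree.2 UniqueFactorizationMonoid.squarefree_radical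
  rw [(IsAlgClosed.splits _).natDegree_eq_card_roots,
    ← Multiset.toFinset_card_of_nodup (nodup_roots hs)]
  refine Finset.card_le_card fun x hx => ?_
  rw [Multiset.mem_toFinset] at hx ⊢
  exact Multiset.mem_of_le (roots.le_of_dvd hf UniqueFactorizationMonoid.radical_dvd_self) hx

theorem card_roots_le (f : ℂ[X]) : f.roots.toFinset.card ≤ f.natDegree := by
  classical
  exact (Multiset.toFinset_card_le _).trans (card_roots' f)

/-- There are at least `p` points at which `A` vanishes to order three. -/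
def Many (p : ℕ) (A : ℂ[X]) : Prop :=
  ∃ s : Finset ℂ, p ≤ s.card ∧ ∀ x ∈ s, (X - C x) ^ 3 ∣ A

theorem many_of_cubes {n p q r : ℕ} {A B a b c P Q R : ℂ[X]} (h : Deg n A B) (hA : A = a * P ^ 3)
    (hB : B = b * Q ^ 3) (hC : A + B = c * R ^ 3) (habc : (a * b * c).natDegree ≤ 2)
    (hP : P.natDegree ≤ p) (hQ : Q.natDegree ≤ q) (hR : R.natDegree ≤ r) (hn : p + q + r + 1 ≤ n) :
    Many p A ∧ Many q B ∧ Many r (A + B) := by
  classical
  have hC0 : A + B ≠ 0 := by
    intro h0
    have := h.lin (a := 1) (b := -1) (by rw [map_neg, map_one]; linear_combination h0)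
    exact one_ne_zero this.1
  have hf : A * B * -(A + B) ≠ 0 := mul_ne_zero (mul_ne_zero h.neA h.neB) (neg_ne_zero.2 hC0)
  have h1 : n + 1 ≤ (UniqueFactorizationMonoid.radical (A * B * -(A + B))).natDegree := by
    rcases Polynomial.abc h.neA h.neB (neg_ne_zero.2 hC0) h.cop (by ring) with h2 | h2
    · rcases h.top with h3 | h3
      · have := le_natDegree_of_ne_zero h3
        omega
      · have := le_natDegree_of_ne_zero h3
        omega
    · exfalso
      have h4 := derivative_eq_zero.1 h2.1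
      have h5 := derivative_eq_zero.1 h2.2.1
      have := h.pos
      rcases h.top with h3 | h3
      · have := le_natDegree_of_ne_zero h3
        omega
      · have := le_natDegree_of_ne_zero h3
        omega
  have e : A * B * -(A + B) = -(a * b * c * (P * Q * R) ^ 3) := by
    rw [hC, hA, hB]
    ring
  have hf' : a * b * c * (P * Q * R) ^ 3 ≠ 0 := by rwa [e, neg_ne_zero] at hf
  have habc0 : a * b * c ≠ 0 := left_ne_zero_of_mul hf'
  have hPQR : P * Q * R ≠ 0 := fun h0 => hf' (by rw [h0]; simp)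
  have hP0 : P ≠ 0 := left_ne_zero_of_mul (left_ne_zero_of_mul hPQR)
  have hQ0 : Q ≠ 0 := right_ne_zero_of_mul (left_ne_zero_of_mul hPQR)
  have hR0 : R ≠ 0 := right_ne_zero_of_mul hPQR
  have hsub : (A * B * -(A + B)).roots.toFinset ⊆ (a * b * c).roots.toFinset ∪
      (P.roots.toFinset ∪ (Q.roots.toFinset ∪ R.roots.toFinset)) := by
    intro x hx
    simp only [Finset.mem_union, Multiset.mem_toFinset, mem_roots habc0, mem_roots hP0,
      mem_roots hQ0, mem_roots hR0, IsRoot.def]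
    rw [Multiset.mem_toFinset, mem_roots hf, IsRoot.def, e, eval_neg, neg_eq_zero, eval_mul,
      mul_eq_zero, eval_pow, pow_eq_zero_iff (by norm_num), eval_mul (p := P * Q),
      eval_mul (p := P), mul_eq_zero, mul_eq_zero] at hx
    tauto
  have h2 := (h1.trans (natDegree_radical_le_card hf)).trans (Finset.card_le_card hsub)
  have h3 := Finset.card_union_le (a * b * c).roots.toFinset
    (P.roots.toFinset ∪ (Q.roots.toFinset ∪ R.roots.toFinset))
  have h4 := Finset.card_union_le P.roots.toFinset (Q.roots.toFinset ∪ R.roots.toFinset)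
  have h5 := Finset.card_union_le Q.roots.toFinset R.roots.toFinset
  have h6 := card_roots_le (a * b * c)
  have h7 := card_roots_le P
  have h8 := card_roots_le Q
  have h9 := card_roots_le R
  have key : ∀ (T t : ℂ[X]), ∀ x ∈ T.roots.toFinset, (X - C x) ^ 3 ∣ t * T ^ 3 := by
    intro T t x hx
    rw [Multiset.mem_toFinset] at hx
    exact Dvd.dvd.mul_left (pow_dvd_pow_of_dvd (dvd_iff_isRoot.2 (isRoot_of_mem_roots hx)) 3) _
  refine ⟨⟨P.roots.toFinset, by omega, ?_⟩, ⟨Q.roots.toFinset, by omega, ?_⟩,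
    ⟨R.roots.toFinset, by omega, ?_⟩⟩
  · rw [hA]
    exact key P a
  · rw [hB]
    exact key Q b
  · rw [hC]
    exact key R c

theorem lin_le {n : ℕ} {A B : ℂ[X]} (h : Deg n A B) (u v : ℂ) :
    (C u * A + C v * B).natDegree ≤ n :=
  (natDegree_add_le _ _).trans
    (max_le ((natDegree_C_mul_le _ _).trans h.lA) ((natDegree_C_mul_le _ _).trans h.lB))

theorem cube_le {n : ℕ} {P : ℂ[X]} (h : P.natDegree ≤ n) : (P ^ 3).natDegree ≤ 3 * n :=
  natDegree_pow_le.trans (by omega)

theorem exists_four (l : ℕ) : ∃ (n : ℕ) (A B P Q R : ℂ[X]), 3 * n + 1 = 4 ^ l ∧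
    Deg (3 * n + 1) A B ∧ A.coeff (3 * n + 1) ≠ 0 ∧ B.coeff (3 * n + 1) = 0 ∧ A = X * P ^ 3 ∧
    B = 1 * Q ^ 3 ∧ A + B = (X + 1) * R ^ 3 ∧ P.natDegree ≤ n ∧ Q.natDegree ≤ n ∧
    R.natDegree ≤ n := by
  induction l with
  | zero =>
    refine ⟨0, X, 1, 1, 1, 1, rfl, ⟨by norm_num, isCoprime_one_right, by simp, by simp, by simp⟩,
      by simp, by simp [coeff_one], by simp, by simp, by simp, by simp, by simp, by simp⟩
  | succ l ih =>
    obtain ⟨n, A, B, P, Q, R, hn, h, hA1, hB1, hA, hB, hC, hP, hQ, hR⟩ := ih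
    have e : 3 * (4 * n + 1) + 1 = (3 * n + 1) + 3 * (3 * n + 1) := by ring
    have l1 := lin_le h 1 2
    have l2 := lin_le h (-2) (-1)
    have l3 := lin_le h 1 (-1)
    have c1 : (A * (C 1 * A + C 2 * B) ^ 3).coeff (3 * (4 * n + 1) + 1) ≠ 0 := by
      rw [e, coeff_mul_add_eq_of_natDegree_le h.lA (cube_le l1), coeff_pow_of_natDegree_le l1]
      simp [hA1, hB1]
    refine ⟨4 * n + 1, A * (C 1 * A + C 2 * B) ^ 3, B * (C (-2) * A + C (-1) * B) ^ 3,
      P * (C 1 * A + C 2 * B), Q * (C (-2) * A + C (-1) * B), R * (C 1 * A + C (-1) * B),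
      by rw [pow_succ, ← hn]; ring, ⟨by omega, cop_of_roots fun x h1 h2 => ?_, ?_, ?_, Or.inl c1⟩,
      c1, ?_, ?_, ?_, ?_, ?_, ?_, ?_⟩
    · simp only [eval_mul, eval_pow, eval_add, eval_C, mul_eq_zero,
        pow_eq_zero_iff (three_ne_zero)] at h1 h2
      have hb : B.eval x = 0 := by
        rcases h1 with h1 | h1 <;> rcases h2 with h2 | h2
        · exact h2
        · linear_combination -h2 - 2 * h1
        · exact h2
        · linear_combination (2 * h1 + h2) / 3
      have ha : A.eval x = 0 := by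
        rcases h1 with h1 | h1
        · exact h1
        · linear_combination h1 - 2 * hb
      exact roots_of_cop h.cop ha hb
    · rw [e]
      exact natDegree_mul_le.trans (add_le_add h.lA (cube_le l1))
    · rw [e]
      exact natDegree_mul_le.trans (add_le_add h.lB (cube_le l2))
    · rw [e, coeff_mul_add_eq_of_natDegree_le h.lB (cube_le l2), hB1, zero_mul]
    · rw [mul_pow, ← mul_assoc, ← hA]
    · rw [mul_pow, ← mul_assoc, ← hB]
    · rw [mul_pow, ← mul_assoc, ← hC]
      simp only [map_neg, map_one, map_ofNat]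
      ring
    · exact natDegree_mul_le.trans (by omega)
    · exact natDegree_mul_le.trans (by omega)
    · exact natDegree_mul_le.trans (by omega)

theorem deg_step {s : ℂ} (hs : s ^ 2 = -3) {n : ℕ} {A B : ℂ[X]} (h : Deg n A B) :
    Deg (3 * n) ((C 2 * A + C (1 - s) * B) ^ 3) ((C (-2) * A + C (-1 - s) * B) ^ 3) := by
  have hs0 : s ≠ 0 := by
    rintro rfl
    norm_num at hs
  have key : ∀ a b : ℂ, 2 * a + (1 - s) * b = 0 → -2 * a + (-1 - s) * b = 0 → a = 0 ∧ b = 0 := by
    intro a b h1 h2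
    have hb : b = 0 := by
      have : s * b = 0 := by linear_combination -(h1 + h2) / 2
      exact (mul_eq_zero.1 this).resolve_left hs0
    exact ⟨by rw [hb] at h1; linear_combination h1 / 2, hb⟩
  have l1 := lin_le h 2 (1 - s)
  have l2 := lin_le h (-2) (-1 - s)
  refine ⟨by have := h.pos; omega, cop_of_roots fun x h1 h2 => ?_, cube_le l1, cube_le l2, ?_⟩
  · simp only [eval_mul, eval_pow, eval_add, eval_C, pow_eq_zero_iff (three_ne_zero)] at h1 h2
    exact roots_of_cop h.cop (key _ _ h1 h2).1 (key _ _ h1 h2).2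
  · by_contra hc
    push Not at hc
    obtain ⟨h1, h2⟩ := hc
    rw [coeff_pow_of_natDegree_le l1, pow_eq_zero_iff three_ne_zero, coeff_add, coeff_C_mul,
      coeff_C_mul] at h1
    rw [coeff_pow_of_natDegree_le l2, pow_eq_zero_iff three_ne_zero, coeff_add, coeff_C_mul,
      coeff_C_mul] at h2
    rcases h.top with h3 | h3
    · exact h3 (key _ _ h1 h2).1
    · exact h3 (key _ _ h1 h2).2

theorem sum_step {s : ℂ} (hs : s ^ 2 = -3) (A B : ℂ[X]) :
    (C 2 * A + C (1 - s) * B) ^ 3 + (C (-2) * A + C (-1 - s) * B) ^ 3 =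
      (C 2 * C s) ^ 3 * (A * B * (A + B)) := by
  have h : (C s : ℂ[X]) ^ 2 = -3 := by
    rw [← map_pow, hs, map_neg, map_ofNat]
  simp only [map_neg, map_one, map_ofNat, map_sub]
  linear_combination (-2 * C s * B ^ 3 - 8 * C s * (A * B * (A + B))) * h

theorem exists_three (k : ℕ) : ∃ (r : ℕ) (A B P Q R : ℂ[X]), r + 1 = 3 ^ k ∧
    Deg (3 * (r + 1)) A B ∧ A = 1 * P ^ 3 ∧ B = 1 * Q ^ 3 ∧ A + B = (X * (X + 1)) * R ^ 3 ∧
    P.natDegree ≤ r + 1 ∧ Q.natDegree ≤ r + 1 ∧ R.natDegree ≤ r := by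
  obtain ⟨s, hs⟩ := IsAlgClosed.exists_pow_nat_eq (-3 : ℂ) (n := 2) (by norm_num)
  have hc : (C 2 * C s : ℂ[X]).natDegree = 0 := by rw [← map_mul, natDegree_C]
  induction k with
  | zero =>
    have h : Deg 1 (X : ℂ[X]) 1 := ⟨by norm_num, isCoprime_one_right, by simp, by simp, by simp⟩
    refine ⟨0, _, _, _, _, C 2 * C s, rfl, deg_step hs h, (one_mul _).symm, (one_mul _).symm, ?_,
      lin_le h _ _, lin_le h _ _, hc.le⟩
    rw [sum_step hs]
    ring
  | succ k ih =>
    obtain ⟨r, A, B, P, Q, R, hr, h, hA, hB, hC, hP, hQ, hR⟩ := ih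
    have e : 3 * r + 2 + 1 = 3 * (r + 1) := by ring
    refine ⟨3 * r + 2, _, _, _, _, C 2 * C s * (P * Q * R), by rw [pow_succ, ← hr]; ring,
      e ▸ deg_step hs h, (one_mul _).symm, (one_mul _).symm, ?_,
      e ▸ lin_le h _ _, e ▸ lin_le h _ _, ?_⟩
    · rw [sum_step hs, hC, hA, hB]
      ring
    · have h1 : (P * Q).natDegree ≤ r + 1 + (r + 1) := natDegree_mul_le.trans (by omega)
      have h2 : (P * Q * R).natDegree ≤ 3 * r + 2 := natDegree_mul_le.trans (by omega)
      exact natDegree_mul_le.trans (by omega)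

theorem family_four (l : ℕ) : ∃ (n : ℕ) (A B : ℂ[X]), 3 * n + 1 = 4 ^ l ∧
    Deg (3 * n + 1) A B ∧ A.coeff (3 * n + 1) ≠ 0 ∧ B.coeff (3 * n + 1) = 0 ∧
    Many n A ∧ Many n B ∧ Many n (A + B) := by
  obtain ⟨n, A, B, P, Q, R, hn, h, hA1, hB1, hA, hB, hC, hP, hQ, hR⟩ := exists_four l
  exact ⟨n, A, B, hn, h, hA1, hB1,
    many_of_cubes h hA hB hC (by compute_degree) hP hQ hR (by omega)⟩

theorem family_three (k : ℕ) : ∃ (r : ℕ) (A B : ℂ[X]), r + 1 = 3 ^ k ∧
    Deg (3 * (r + 1)) A B ∧ B.coeff (3 * (r + 1)) ≠ 0 ∧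
    Many (r + 1) A ∧ Many (r + 1) B ∧ Many r (A + B) := by
  obtain ⟨r, A, B, P, Q, R, hr, h, hA, hB, hC, hP, hQ, hR⟩ := exists_three k
  refine ⟨r, A, B, hr, h, ?_, many_of_cubes h hA hB hC (by compute_degree) hP hQ hR (by omega)⟩
  have h1 : (X * (X + 1) : ℂ[X]).natDegree ≤ 2 := by compute_degree
  have h2 : (A + B).natDegree ≤ 2 + 3 * r := by
    rw [hC]
    exact natDegree_mul_le.trans (add_le_add h1 (cube_le hR))
  have h3 : (A + B).coeff (3 * (r + 1)) = 0 := coeff_eq_zero_of_natDegree_lt (by omega)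
  rw [coeff_add] at h3
  intro h4
  rcases h.top with h5 | h5
  · exact h5 (by rw [h4, add_zero] at h3; exact h3)
  · exact h5 h4

end Pool.Agent.Lib.MP_81ecef_ag.L3
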