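import Mathlib
import Pool.Agent.Lib.MP_81ecef_ag.Finite
import Pool.Agent.Lib.MP_81ecef_ag.Implicit
import Pool.Agent.Lib.MP_81ecef_ag.L3.Sep

/-! The plane curve `A(x) B'(y) = B(x) A'(y)`: irreducibility and multiplicities. -/

namespace Pool.Agent.Lib.MP_81ecef_ag.L3

open Polynomial

/-- The form of degree `n` in the variables `f 0`, `f 1` attached to `p`. -/
noncomputable def hom (f : Fin 2 → Fin 3) (p : ℂ[X]) (n : ℕ) : MvPolynomial (Fin 3) ℂ :=
  MvPolynomial.rename f (homogenize p n)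

/-- The homogeneous equation of the curve. -/
noncomputable def form (N M : ℕ) (A B A' B' : ℂ[X]) : MvPolynomial (Fin 3) ℂ :=
  hom ![0, 2] A N * hom ![1, 2] B' M - hom ![0, 2] B N * hom ![1, 2] A' M

theorem hom_isHomogeneous (f : Fin 2 → Fin 3) (p : ℂ[X]) (n : ℕ) :
    (hom f p n).IsHomogeneous n := (isHomogeneous_homogenize p).rename_isHomogeneous

theorem form_isHomogeneous (N M : ℕ) (A B A' B' : ℂ[X]) :
    (form N M A B A' B').IsHomogeneous (N + M) :=
  ((hom_isHomogeneous _ _ _).mul (hom_isHomogeneous _ _ _)).sub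
    ((hom_isHomogeneous _ _ _).mul (hom_isHomogeneous _ _ _))

theorem hom_add (f : Fin 2 → Fin 3) (p q : ℂ[X]) (n : ℕ) :
    hom f (p + q) n = hom f p n + hom f q n := by
  simp [hom]

theorem aeval_hom {S : Type} [CommRing S] [Algebra ℂ S] (f : Fin 2 → Fin 3) (v : Fin 3 → S)
    (hv : v (f 1) = 1) {p : ℂ[X]} {n : ℕ} (hn : p.natDegree ≤ n) :
    MvPolynomial.aeval v (hom f p n) = aeval (v (f 0)) p := by
  rw [hom, MvPolynomial.aeval_rename, aeval_homogenize_of_eq_one hn _ hv]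
  rfl

theorem eval_hom_inf (f : Fin 2 → Fin 3) (v : Fin 3 → ℂ) (h0 : v (f 0) = 1) (h1 : v (f 1) = 0)
    {p : ℂ[X]} {n : ℕ} (hn : p.natDegree ≤ n) :
    MvPolynomial.eval v (hom f p n) = p.coeff n := by
  refine Polynomial.induction_with_natDegree_le
    (fun p => MvPolynomial.eval v (hom f p n) = p.coeff n) n ?_ ?_ ?_ p hn
  · simp [hom]
  · intro m r _ hm
    simp only [hom, homogenize_C_mul, homogenize_X_pow hm, map_mul, map_pow,
      MvPolynomial.rename_C, MvPolynomial.rename_X, MvPolynomial.eval_C, MvPolynomial.eval_X, h0,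
      h1, one_pow, one_mul, coeff_C_mul, coeff_X_pow]
    by_cases h : n = m
    · simp [h]
    · rw [if_neg h, zero_pow (by omega)]
  · intro p q _ _ hp hq
    rw [hom_add, map_add, hp, hq, coeff_add]

theorem psi_form {N M : ℕ} {A B A' B' : ℂ[X]} (h : Deg N A B) (h' : Deg M A' B') :
    MvPolynomial.aeval (![C X, X, 1] : Fin 3 → ℂ[X][X]) (form N M A B A' B') = sep A B A' B' := by
  have e1 : ∀ p : ℂ[X], aeval (C X : ℂ[X][X]) p = C p := fun p => by
    rw [← algebraMap_eq, aeval_algebraMap_apply, aeval_X_left_apply]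
  have e2 : ∀ p : ℂ[X], aeval (X : ℂ[X][X]) p = p.map C := fun p => by
    rw [← algebraMap_eq, ← aeval_map_algebraMap ℂ[X], aeval_X_left_apply]
  rw [form, map_sub, map_mul, map_mul, aeval_hom _ _ rfl h.lA, aeval_hom _ _ rfl h.lB,
    aeval_hom _ _ rfl h'.lA, aeval_hom _ _ rfl h'.lB]
  simp only [Matrix.cons_val_zero, Matrix.cons_val_one, e1, e2, sep]

theorem deg_zero_of_unit {H : MvPolynomial (Fin 3) ℂ} {d : ℕ} (hH : H.IsHomogeneous d)
    (hu : IsUnit (MvPolynomial.aeval (![C X, X, 1] : Fin 3 → ℂ[X][X]) H))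
    (h0 : MvPolynomial.eval ![1, 1, 0] H ≠ 0) : d = 0 := by
  by_contra hd
  obtain ⟨r, hr, hr'⟩ := Polynomial.isUnit_iff.1 hu
  obtain ⟨c, -, rfl⟩ := Polynomial.isUnit_iff.1 hr
  have h1 : ∀ x y : ℂ, MvPolynomial.eval ![x, y, 1] H = c := by
    intro x y
    have := congrArg (aevalAeval (R := ℂ) x y) hr'
    rw [← AlgHom.comp_apply, MvPolynomial.comp_aeval] at this
    have e : (fun i => aevalAeval (R := ℂ) x y ((![C X, X, 1] : Fin 3 → ℂ[X][X]) i)) =
        ![x, y, 1] := by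
      funext i
      fin_cases i <;> simp
    rw [e] at this
    simpa [MvPolynomial.coe_aeval_eq_eval] using this.symm
  have h2 : ∀ t : ℂ, (MvPolynomial.aeval (![1, 1, X] : Fin 3 → ℂ[X]) H).eval t =
      MvPolynomial.eval ![1, 1, t] H := by
    intro t
    rw [← coe_aeval_eq_eval, ← AlgHom.comp_apply, MvPolynomial.comp_aeval]
    have e : (fun i => aeval t ((![1, 1, X] : Fin 3 → ℂ[X]) i)) = ![1, 1, t] := by
      funext i
      fin_cases i <;> simp
    rw [e]
    rfl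
  have h3 : MvPolynomial.aeval (![1, 1, X] : Fin 3 → ℂ[X]) H = C c * X ^ d := by
    refine eq_of_infinite_eval_eq _ _ ((Set.finite_singleton (0 : ℂ)).infinite_compl.mono ?_)
    intro t ht
    have ht0 : t ≠ 0 := ht
    have e : (![1, 1, t] : Fin 3 → ℂ) = t • ![t⁻¹, t⁻¹, 1] := by
      funext i
      fin_cases i <;> simp [ht0]
    change _ = _
    rw [h2, e, eval_smul_of_isHomogeneous hH, h1, eval_mul, eval_C, eval_pow, eval_X, mul_comm]
  apply h0
  rw [← h2, h3]
  simp [hd]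

theorem irreducible_form {N M : ℕ} {A B A' B' : ℂ[X]} (h : Deg N A B) (h' : Deg M A' B')
    (hNM : Nat.Coprime M N) (hl : A.coeff N * B'.coeff M - B.coeff N * A'.coeff M ≠ 0) :
    Irreducible (form N M A B A' B') := by
  have hev : MvPolynomial.eval ![1, 1, 0] (form N M A B A' B') ≠ 0 := by
    rw [form, map_sub, map_mul, map_mul, eval_hom_inf _ _ rfl rfl h.lA,
      eval_hom_inf _ _ rfl rfl h.lB, eval_hom_inf _ _ rfl rfl h'.lA, eval_hom_inf _ _ rfl rfl h'.lB]
    exact hl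
  have hs := irreducible_sep h h' hNM
  rw [← psi_form h h'] at hs
  have hG := form_isHomogeneous N M A B A' B'
  set G := form N M A B A' B'
  have hG0 : G ≠ 0 := fun h0 => hev (by rw [h0, map_zero])
  refine ⟨fun hu => hs.not_isUnit (hu.map _), fun G₁ G₂ hmul => ?_⟩
  have h1 : G₁ ≠ 0 := by
    rintro rfl
    exact hG0 (by rw [hmul, zero_mul])
  have h2 : G₂ ≠ 0 := by
    rintro rfl
    exact hG0 (by rw [hmul, mul_zero])
  have hd : N + M = G₁.totalDegree + G₂.totalDegree := by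
    rw [← hG.totalDegree hG0, hmul, MvPolynomial.totalDegree_mul_of_isDomain h1 h2]
  have ht : G = MvPolynomial.homogeneousComponent G₁.totalDegree G₁ *
      MvPolynomial.homogeneousComponent G₂.totalDegree G₂ := by
    rw [← top_component_mul, ← hmul, ← hd, MvPolynomial.homogeneousComponent_eq_self hG]
  have hunit : ∀ H : MvPolynomial (Fin 3) ℂ, H ≠ 0 → H.totalDegree = 0 → IsUnit H := by
    intro H hH hH0
    rw [MvPolynomial.totalDegree_eq_zero_iff_eq_C] at hH0
    rw [hH0] at hH ⊢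
    refine IsUnit.map MvPolynomial.C (isUnit_iff_ne_zero.2 ?_)
    intro h
    exact hH (by rw [h, MvPolynomial.C_0])
  rw [ht, map_mul] at hev
  rcases hs.isUnit_or_isUnit (by rw [ht, map_mul]) with h3 | h3
  · exact Or.inl (hunit _ h1 (deg_zero_of_unit
      (MvPolynomial.homogeneousComponent_isHomogeneous _ G₁) h3 (left_ne_zero_of_mul hev)))
  · exact Or.inr (hunit _ h2 (deg_zero_of_unit
      (MvPolynomial.homogeneousComponent_isHomogeneous _ G₂) h3 (right_ne_zero_of_mul hev)))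

/-- The ideal of polynomials vanishing at `v`. -/
noncomputable def van (v : Fin 3 → ℂ) : Ideal (MvPolynomial (Fin 3) ℂ) :=
  RingHom.ker (MvPolynomial.eval v)

theorem pderiv_mem (I : Ideal (MvPolynomial (Fin 3) ℂ)) (i : Fin 3) :
    ∀ (m : ℕ) (F : MvPolynomial (Fin 3) ℂ), F ∈ I ^ (m + 1) → MvPolynomial.pderiv i F ∈ I ^ m := by
  intro m
  induction m with
  | zero => simp
  | succ m ih =>
    intro F hF
    rw [pow_succ] at hF
    refine Submodule.mul_induction_on hF ?_ ?_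
    · intro a ha b hb
      rw [Derivation.leibniz, smul_eq_mul, smul_eq_mul]
      refine Ideal.add_mem _ (Ideal.mul_mem_right _ _ ha) ?_
      rw [pow_succ']
      exact Ideal.mul_mem_mul hb (ih a ha)
    · intro a b ha hb
      rw [map_add]
      exact Ideal.add_mem _ ha hb

theorem iterD_mem (I : Ideal (MvPolynomial (Fin 3) ℂ)) (F : MvPolynomial (Fin 3) ℂ) :
    ∀ (l : List (Fin 3)) (m : ℕ), F ∈ I ^ (m + l.length) → iterD l F ∈ I ^ m := by
  intro l
  induction l with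
  | nil => intro m h; exact h
  | cons i l ih =>
    intro m h
    refine pderiv_mem I i m _ (ih (m + 1) ?_)
    rwa [List.length_cons, ← add_assoc, add_right_comm] at h

theorem le_mult_of_mem {F : MvPolynomial (Fin 3) ℂ} {d : ℕ} (hF : F.IsHomogeneous d) (h0 : F ≠ 0)
    {v : Fin 3 → ℂ} (hv : v ≠ 0) {m : ℕ} (h : F ∈ van v ^ m) :
    m ≤ mult F (Projectivization.mk ℂ v hv) := by
  refine le_mult hF h0 hv fun l hl => ?_
  have := iterD_mem (van v) F l 1 (Ideal.pow_le_pow_right (by omega) h)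
  rwa [pow_one] at this

theorem hom_mem_inf (f : Fin 2 → Fin 3) (v : Fin 3 → ℂ) (h0 : v (f 0) = 0) (h1 : v (f 1) = 0)
    {p : ℂ[X]} {n : ℕ} (hn : p.natDegree ≤ n) : hom f p n ∈ van v ^ n := by
  have hX : ∀ i, v i = 0 → (MvPolynomial.X i : MvPolynomial (Fin 3) ℂ) ∈ van v := fun i hi => by
    simp [van, RingHom.mem_ker, hi]
  refine Polynomial.induction_with_natDegree_le (fun p => hom f p n ∈ van v ^ n) n ?_ ?_ ?_ p hn
  · simp [hom]
  · intro m r _ hm
    simp only [hom, homogenize_C_mul, homogenize_X_pow hm, map_mul, map_pow,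
      MvPolynomial.rename_C, MvPolynomial.rename_X]
    refine Ideal.mul_mem_left _ _ ?_
    have := Ideal.mul_mem_mul (Ideal.pow_mem_pow (hX _ h0) m) (Ideal.pow_mem_pow (hX _ h1) (n - m))
    rwa [← pow_add, Nat.add_sub_cancel' hm] at this
  · intro p q _ _ hp hq
    rw [hom_add]
    exact Ideal.add_mem _ hp hq

theorem hom_mem_triple (f : Fin 2 → Fin 3) (v : Fin 3 → ℂ) (h1 : v (f 1) = 1)
    {p : ℂ[X]} {n : ℕ} (hn : p.natDegree ≤ n) (hp : (X - C (v (f 0))) ^ 3 ∣ p) :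
    hom f p n ∈ van v ^ 3 := by
  by_cases hp0 : p = 0
  · simp [hp0, hom]
  obtain ⟨q, rfl⟩ := hp
  have hq0 : q ≠ 0 := right_ne_zero_of_mul hp0
  rw [natDegree_mul (left_ne_zero_of_mul hp0) hq0, natDegree_pow, natDegree_X_sub_C] at hn
  obtain ⟨m, rfl⟩ : ∃ m, n = 1 + (1 + (1 + m)) := ⟨n - 3, by omega⟩
  set r : ℂ[X] := X - C (v (f 0)) with hr
  have hr1 : r.natDegree ≤ 1 := (natDegree_X_sub_C _).le
  have hq : q.natDegree ≤ m := by omega
  have hq1 : (r * q).natDegree ≤ 1 + m := natDegree_mul_le.trans (by omega)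
  have hq2 : (r * (r * q)).natDegree ≤ 1 + (1 + m) := natDegree_mul_le.trans (by omega)
  have e : r ^ 3 * q = r * (r * (r * q)) := by ring
  have hmem : hom f r 1 ∈ van v := by
    have := aeval_hom f v h1 hr1
    rw [van, RingHom.mem_ker, ← MvPolynomial.coe_aeval_eq_eval]
    rw [RingHom.coe_coe, this]
    simp [hr]
  have e2 : hom f (r ^ 3 * q) (1 + (1 + (1 + m))) = hom f r 1 ^ 3 * hom f q m := by
    rw [e, hom, homogenize_mul _ _ hr1 hq2, homogenize_mul _ _ hr1 hq1, homogenize_mul _ _ hr1 hq]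
    simp only [map_mul, hom]
    ring
  rw [e2]
  exact Ideal.mul_mem_right _ _ (Ideal.pow_mem_pow hmem 3)

theorem form_mem_triple {N M : ℕ} {A B A' B' : ℂ[X]} (h : Deg N A B) (h' : Deg M A' B') {x y : ℂ}
    (ht : ((X - C x) ^ 3 ∣ A ∧ (X - C y) ^ 3 ∣ A') ∨ ((X - C x) ^ 3 ∣ B ∧ (X - C y) ^ 3 ∣ B') ∨
      ((X - C x) ^ 3 ∣ A + B ∧ (X - C y) ^ 3 ∣ A' + B')) :
    form N M A B A' B' ∈ van ![x, y, 1] ^ 3 := by
  rcases ht with ⟨h1, h2⟩ | ⟨h1, h2⟩ | ⟨h1, h2⟩
  · exact Ideal.sub_mem _ (Ideal.mul_mem_right _ _ (hom_mem_triple _ _ rfl h.lA h1))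
      (Ideal.mul_mem_left _ _ (hom_mem_triple _ _ rfl h'.lA h2))
  · exact Ideal.sub_mem _ (Ideal.mul_mem_left _ _ (hom_mem_triple _ _ rfl h'.lB h2))
      (Ideal.mul_mem_right _ _ (hom_mem_triple _ _ rfl h.lB h1))
  · have e : form N M A B A' B' = hom ![0, 2] A N * hom ![1, 2] (A' + B') M -
        hom ![0, 2] (A + B) N * hom ![1, 2] A' M := by
      rw [form, hom_add, hom_add]
      ring
    rw [e]
    exact Ideal.sub_mem _
      (Ideal.mul_mem_left _ _ (hom_mem_triple _ _ rfl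
        ((natDegree_add_le _ _).trans (max_le h'.lA h'.lB)) h2))
      (Ideal.mul_mem_right _ _ (hom_mem_triple _ _ rfl
        ((natDegree_add_le _ _).trans (max_le h.lA h.lB)) h1))

theorem form_mem_x {N M : ℕ} {A B A' B' : ℂ[X]} (h' : Deg M A' B') :
    form N M A B A' B' ∈ van ![1, 0, 0] ^ M :=
  Ideal.sub_mem _ (Ideal.mul_mem_left _ _ (hom_mem_inf _ _ rfl rfl h'.lB))
    (Ideal.mul_mem_left _ _ (hom_mem_inf _ _ rfl rfl h'.lA))

theorem form_mem_y {N M : ℕ} {A B A' B' : ℂ[X]} (h : Deg N A B) :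
    form N M A B A' B' ∈ van ![0, 1, 0] ^ N :=
  Ideal.sub_mem _ (Ideal.mul_mem_right _ _ (hom_mem_inf _ _ rfl rfl h.lA))
    (Ideal.mul_mem_right _ _ (hom_mem_inf _ _ rfl rfl h.lB))

end Pool.Agent.Lib.MP_81ecef_ag.L3
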