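import Mathlib
import Pool.Agent.Lib.MP_81ecef_ag.L3.Form
import Pool.Agent.Lib.MP_81ecef_ag.L3.Seq

/-! Counting lemma for the h-constant, and irreducible curves with h-constant close to `-3`. -/

namespace Pool.Agent.Lib.MP_81ecef_ag.L3

open Polynomial

theorem hConst_lt {F : MvPolynomial (Fin 3) ℂ} {d : ℕ} (hF : F.IsHomogeneous d)
    (hirr : Irreducible F) {c : ℝ} (hc : -4 ≤ c) (T : Finset (Projectivization ℂ (Fin 3 → ℂ)))
    (w : Projectivization ℂ (Fin 3 → ℂ) → ℕ) (hT : T.Nonempty) (h2 : ∀ x ∈ T, 2 ≤ w x)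
    (hw : ∀ x ∈ T, w x ≤ mult F x) (hd : (d : ℝ) ^ 2 < ∑ x ∈ T, ((w x : ℝ) ^ 2 + c)) :
    (Sing F).Finite ∧ (Sing F).Nonempty ∧ hConst F < c := by
  classical
  have hfin := finite_sing hF hirr
  have hsub : T ⊆ hfin.toFinset := fun x hx =>
    (Set.Finite.mem_toFinset _).2 ((h2 x hx).trans (hw x hx))
  have hne : hfin.toFinset.Nonempty := hT.mono hsub
  refine ⟨hfin, by simpa using hne, ?_⟩
  unfold hConst
  rw [finsum_mem_eq_finite_toFinset_sum _ hfin, Set.ncard_eq_toFinset_card _ hfin,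
    hF.totalDegree hirr.ne_zero, div_lt_iff₀ (by exact_mod_cast hne.card_pos)]
  have h1 : ∑ x ∈ T, ((mult F x : ℝ) ^ 2 + c) ≤
      ∑ x ∈ hfin.toFinset, ((mult F x : ℝ) ^ 2 + c) := by
    refine Finset.sum_le_sum_of_subset_of_nonneg hsub fun x hx _ => ?_
    rw [Set.Finite.mem_toFinset] at hx
    have : (2 : ℝ) ≤ mult F x := by exact_mod_cast (hx : 2 ≤ mult F x)
    nlinarith
  have h3 : ∑ x ∈ T, ((w x : ℝ) ^ 2 + c) ≤ ∑ x ∈ T, ((mult F x : ℝ) ^ 2 + c) := by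
    refine Finset.sum_le_sum fun x hx => ?_
    have : (w x : ℝ) ≤ mult F x := by exact_mod_cast hw x hx
    have h0 : (0 : ℝ) ≤ w x := Nat.cast_nonneg _
    nlinarith
  rw [Finset.sum_add_distrib (s := hfin.toFinset), Finset.sum_const, nsmul_eq_mul] at h1
  linarith

end Pool.Agent.Lib.MP_81ecef_ag.L3
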